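import Mathlib
import Pool.Agent.R439.S4G
import Pool.Agent.R439.C42C

set_option autoImplicit false

namespace Pool.Agent.Results.MP_950ea9_nt.AllPrimePowers

open Finset Pool.Agent.R439

/-- The sum `S(p,r)` of the problem. -/
def S (p r : ℕ) : ℚ :=
  ∑ k ∈ range (p ^ r), (3 * (k : ℚ) + 1) * rf (1 / 2) k ^ 3 / (k.factorial : ℚ) ^ 3 * 2 ^ (2 * k)

/-- **Answer to Q1**: for every prime `p > 3` and every `r ≥ 1`,
`S(p,r) ≡ p^r + (7/6) B_{p-3} p^(r+3) (mod p^(r+4))`. -/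
theorem result : ∀ p r : ℕ, p.Prime → 3 < p → 0 < r →
    ∃ t : ℚ, S p r - ((p : ℚ) ^ r + 7 / 6 * bernoulli (p - 3) * (p : ℚ) ^ (r + 3)) =
      (p : ℚ) ^ (r + 4) * t ∧ ¬ p ∣ t.den := by
  intro p r hp h3 hr
  have : Fact p.Prime := ⟨hp⟩
  obtain ⟨t, h1, h2⟩ := C42.final hp (by omega) hr
  have h4 := (PL.S4.S_final (p := p) h3 hr).sub (PL.S4.I_of_den h1 h2)
  have h5 : S p r = ∑ k ∈ range (p ^ r), (3 * (k : ℚ) + 1) * ch k ^ 3 * 2 ^ (2 * k) := by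
    rw [S]
    exact sum_congr rfl fun k _ => by rw [ch, div_pow, mul_div_assoc]
  refine PL.S4.exists_of_I ?_
  rw [h5]
  convert h4 using 1
  ring

end Pool.Agent.Results.MP_950ea9_nt.AllPrimePowers
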